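import Pool.Agent.helper22.GS.Spec

/-! # Project gs (MP_561ff4_al), module BF -/

set_option autoImplicit false

namespace Pool.Agent.GS

open Module

theorem BF_trace (F K : Type) [Field F] [Field K] [Algebra F K] [Finite K]
    [FiniteDimensional F K] : ∃ z : K, Algebra.trace F K z = 1 := by
  have : Finite F := Finite.of_injective (algebraMap F K) (algebraMap F K).injective
  have h := Algebra.trace_surjective F K
  exact h 1

theorem BF : BF_stmt := by
  intro F K _ _ _ _ _
  obtain ⟨z, hz⟩ := BF_trace F K
  refine ⟨?_, ?_, ?_⟩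
  · intro α hα
    constructor
    · intro x y
      rw [bf_apply, bf_apply]
      congr 1
      ring
    · intro x hx
      by_contra h
      have h1 := hx ((α⁻¹ * x)⁻¹ * z)
      rw [bf_apply] at h1
      have h2 : α⁻¹ * x ≠ 0 := mul_ne_zero (inv_ne_zero hα) h
      have h3 : α⁻¹ * x * ((α⁻¹ * x)⁻¹ * z) = z := by
        rw [← mul_assoc, mul_inv_cancel₀ h2, one_mul]
      rw [h3, hz] at h1
      exact one_ne_zero h1
  · constructor
    · intro v
      rw [B0_apply]
      have : v.1 * v.2 - v.2 * v.1 = 0 := by ring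
      rw [this, map_zero]
    · intro u hu
      have ha : u.1 = 0 := by
        by_contra h
        have h1 := hu (0, u.1⁻¹ * z)
        rw [B0_apply] at h1
        have h3 : u.1 * ((0, u.1⁻¹ * z) : K × K).2 - u.2 * ((0, u.1⁻¹ * z) : K × K).1 = z := by
          show u.1 * (u.1⁻¹ * z) - u.2 * 0 = z
          rw [← mul_assoc, mul_inv_cancel₀ h, one_mul, mul_zero, sub_zero]
        rw [h3, hz] at h1
        exact one_ne_zero h1
      have hb : u.2 = 0 := by
        by_contra h
        have h1 := hu (u.2⁻¹ * z, 0)
        rw [B0_apply] at h1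
        have h3 : u.1 * ((u.2⁻¹ * z, 0) : K × K).2 - u.2 * ((u.2⁻¹ * z, 0) : K × K).1 = -z := by
          show u.1 * 0 - u.2 * (u.2⁻¹ * z) = -z
          rw [← mul_assoc, mul_inv_cancel₀ h, one_mul, mul_zero, zero_sub]
        rw [h3, map_neg, hz] at h1
        exact (neg_ne_zero.2 one_ne_zero) h1
      exact Prod.ext ha hb
  · rw [finrank_prod, two_mul]

end Pool.Agent.GS
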