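import Pool.Agent.helper22.GS.Spec

/-!
# Project gs (MP_561ff4_al): module NK
-/

set_option autoImplicit false
set_option linter.unusedVariables false

namespace Pool.Agent.GS

open Module

theorem NK_pow {K : Type} [Field K] (α β : K) (z : Equiv.Perm (K × K))
    (hz : ∀ a b, z (a, b) = ((1 + α * β) * a + α * b, β * a + b)) (j : ℕ) :
    ∀ a b : K, (z ^ j) (a, b) =
      (((!![1 + α * β, α; β, 1] : Matrix (Fin 2) (Fin 2) K) ^ j) 0 0 * a +
        ((!![1 + α * β, α; β, 1] : Matrix (Fin 2) (Fin 2) K) ^ j) 0 1 * b,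
       ((!![1 + α * β, α; β, 1] : Matrix (Fin 2) (Fin 2) K) ^ j) 1 0 * a +
        ((!![1 + α * β, α; β, 1] : Matrix (Fin 2) (Fin 2) K) ^ j) 1 1 * b) := by
  induction j with
  | zero =>
    intro a b
    simp
  | succ j ih =>
    intro a b
    rw [pow_succ, Equiv.Perm.mul_apply, hz, ih, pow_succ]
    simp only [Matrix.mul_apply, Fin.sum_univ_two, Matrix.of_apply, Matrix.cons_val_zero,
      Matrix.cons_val_one, Matrix.cons_val', Matrix.cons_val_fin_one]
    refine Prod.ext ?_ ?_
    · simp only
      ring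
    · simp only
      ring

/-- NK -/
theorem NK : NK_stmt := by
  intro F K _ _ _ r m α β hD z hz j c hj
  refine hD.ord (!![1 + α * β, α; β, 1]) ?_ ?_ j (algebraMap F K c) ?_
  · rw [Matrix.det_fin_two_of]
    ring
  · rw [Matrix.trace_fin_two_of]
    ring
  · have h1 := hj ((1 : K), (0 : K))
    have h2 := hj ((0 : K), (1 : K))
    rw [NK_pow α β z hz] at h1 h2
    simp only [mul_one, mul_zero, add_zero, zero_add, Prod.smul_mk, smul_zero, Prod.mk.injEq]
      at h1 h2
    rw [Algebra.smul_def, mul_one] at h1 h2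
    ext i k
    fin_cases i <;> fin_cases k
    · simpa using h1.1
    · simpa using h2.1
    · simpa using h1.2
    · simpa using h2.2

end Pool.Agent.GS
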